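import Pool.Agent.N284.Bohr.PS

/-! Coefficient estimates. -/

set_option autoImplicit false

open Filter Topology MeasureTheory Set Metric

namespace Pool.Agent.N284.Bohr

lemma PS.const (c : ℂ) : PS (fun n => if n = 0 then c else 0) (fun _ => c) := by
  intro z _
  have h := hasSum_single (f := fun n : ℕ => (if n = 0 then c else 0) * z ^ n) 0
    (fun n hn => by simp [hn])
  simpa using h

lemma PS.const_mul {a : ℕ → ℂ} {f : ℂ → ℂ} (ha : PS a f) (c : ℂ) :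
    PS (fun n => c * a n) (fun z => c * f z) := fun z hz => by
  refine ((ha z hz).mul_left c).congr_fun fun n => ?_
  ring

lemma PS.summable_sq {a : ℕ → ℂ} {f : ℂ → ℂ} (h : PS a f) {r : ℝ} (hr0 : 0 ≤ r) (hr : r < 1) :
    Summable (fun n => ‖a n‖ ^ 2 * r ^ (2 * n)) := (h.parseval hr0 hr).summable

/-- the weighted tail bound -/
lemma tail_bound {a : ℕ → ℂ} {s : ℂ → ℂ} (hs : DifferentiableOn ℂ s (ball 0 1))
    (hb : ∀ z ∈ ball (0 : ℂ) 1, ‖s z‖ ≤ 1) (ha : PS a s) {ρ : ℝ} (hρ0 : 0 < ρ) (hρ : ρ < 1) (N : ℕ) :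
    ∑ n ∈ Finset.range N, ρ ^ n * ‖a (n + 1)‖ ^ 2 ≤
      (1 - ‖a 0‖ ^ 2) ^ 2 / (1 - ‖a 0‖ ^ 2 * ρ) := by
  set R := Real.sqrt ρ with hR
  have hR0 : 0 ≤ R := Real.sqrt_nonneg _
  have hR2 : R ^ 2 = ρ := Real.sq_sqrt hρ0.le
  have hR1 : R < 1 := by
    rw [hR, Real.sqrt_lt' one_pos]; simpa using hρ
  have h0 : a 0 = s 0 := by
    have := (ha 0 (by simp)).unique (hasSum_single 0 (fun n hn => by simp [hn]))
    simpa using this.symm
  have hx : ‖a 0‖ ≤ 1 := h0 ▸ hb 0 (by simp)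
  -- the two power series
  set c : ℝ := 1 - ‖a 0‖ ^ 2 with hc
  have hc0 : 0 ≤ c := by
    have := norm_nonneg (a 0)
    nlinarith
  have hu : PS (fun n => a n - if n = 0 then s 0 else 0) (fun z => s z - s 0) :=
    ha.sub (PS.const (s 0))
  have hv : PS (fun n => (if n = 0 then (1 : ℂ) else 0) - (starRingEnd ℂ) (s 0) * a n)
      (fun z => 1 - (starRingEnd ℂ) (s 0) * s z) :=
    (PS.const 1).sub (ha.const_mul _)
  have hv2 : PS (fun n => (R : ℂ) * ((if n = 0 then (1 : ℂ) else 0) - (starRingEnd ℂ) (s 0) * a n))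
      (fun z => (R : ℂ) * (1 - (starRingEnd ℂ) (s 0) * s z)) := hv.const_mul _
  have hcmp := compare hu hv2 (hs.continuousOn.sub continuousOn_const)
    (continuousOn_const.mul (continuousOn_const.sub (continuousOn_const.mul hs.continuousOn)))
    hR0 hR1 (fun z hz => by
      have := schwarz_pick hs hb (z := z) (by rw [hz]; exact hR1)
      rw [hz] at this
      rwa [norm_mul, Complex.norm_real, Real.norm_of_nonneg hR0])
  -- evaluate the sums
  set T : ℝ := ∑' n, ‖a (n + 1)‖ ^ 2 * R ^ (2 * (n + 1)) with hT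
  have hsT : Summable (fun n => ‖a (n + 1)‖ ^ 2 * R ^ (2 * (n + 1))) :=
    (summable_nat_add_iff 1).mpr (ha.summable_sq hR0 hR1)
  have e1 : ∑' n, ‖a n - if n = 0 then s 0 else 0‖ ^ 2 * R ^ (2 * n) = T := by
    rw [(hu.summable_sq hR0 hR1).tsum_eq_zero_add]
    simp [h0, hT]
  have e2 : ∑' n, ‖(R : ℂ) * ((if n = 0 then (1 : ℂ) else 0) - (starRingEnd ℂ) (s 0) * a n)‖ ^ 2 *
      R ^ (2 * n) = ρ * (c ^ 2 + ‖a 0‖ ^ 2 * T) := by
    rw [(hv2.summable_sq hR0 hR1).tsum_eq_zero_add]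
    have e3 : ‖(R : ℂ) * ((if (0 : ℕ) = 0 then (1 : ℂ) else 0) - (starRingEnd ℂ) (s 0) * a 0)‖ ^ 2 *
      R ^ (2 * 0) = ρ * c ^ 2 := by
      rw [if_pos rfl, h0, mul_comm ((starRingEnd ℂ) (s 0)), Complex.mul_conj, norm_mul,
        Complex.norm_real, Real.norm_of_nonneg hR0, Complex.normSq_eq_norm_sq]
      have : (1 : ℂ) - ((‖s 0‖ ^ 2 : ℝ) : ℂ) = ((c : ℝ) : ℂ) := by rw [hc, h0]; push_cast; ring
      rw [this, Complex.norm_real, Real.norm_of_nonneg hc0]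
      rw [mul_pow, hR2]; ring
    rw [e3]
    have e4 : ∀ n : ℕ, ‖(R : ℂ) * ((if n + 1 = 0 then (1 : ℂ) else 0) -
        (starRingEnd ℂ) (s 0) * a (n + 1))‖ ^ 2 * R ^ (2 * (n + 1)) =
        ρ * ‖a 0‖ ^ 2 * (‖a (n + 1)‖ ^ 2 * R ^ (2 * (n + 1))) := by
      intro n
      rw [if_neg (Nat.succ_ne_zero n), zero_sub, norm_mul, norm_neg, norm_mul, RCLike.norm_conj,
        Complex.norm_real, Real.norm_of_nonneg hR0, ← h0, mul_pow, mul_pow, hR2]
      ring
    simp only [e4]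
    rw [tsum_mul_left]
    ring
  rw [e1, e2] at hcmp
  have hden : 0 < 1 - ‖a 0‖ ^ 2 * ρ := by
    have : ‖a 0‖ ^ 2 ≤ 1 := by nlinarith [norm_nonneg (a 0)]
    nlinarith
  have h3 : T ≤ ρ * (c ^ 2 / (1 - ‖a 0‖ ^ 2 * ρ)) := by
    rw [← mul_div_assoc, le_div_iff₀ hden]
    nlinarith
  have h4 : ρ * ∑ n ∈ Finset.range N, ρ ^ n * ‖a (n + 1)‖ ^ 2 ≤ T := by
    rw [Finset.mul_sum]
    refine le_trans (le_of_eq ?_) (hsT.sum_le_tsum (Finset.range N) fun n _ => by positivity)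
    refine Finset.sum_congr rfl fun n _ => ?_
    rw [pow_mul, hR2, pow_succ]; ring
  exact le_of_mul_le_mul_left (h4.trans h3) hρ0

lemma finite_limit {N : ℕ} {α β : ℕ → ℝ} {C D : ℝ}
    (h : ∀ r : ℝ, 0 < r → r < 1 → ∑ n ∈ Finset.range N, α n * r ^ (2 * n) ≤
      C + ∑ n ∈ Finset.range N, β n * r ^ (2 * n) + D) :
    ∑ n ∈ Finset.range N, α n ≤ C + ∑ n ∈ Finset.range N, β n + D := by
  have h1 : Tendsto (fun r : ℝ => ∑ n ∈ Finset.range N, α n * r ^ (2 * n)) (𝓝[<] 1)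
      (𝓝 (∑ n ∈ Finset.range N, α n * (1 : ℝ) ^ (2 * n))) := by
    apply tendsto_nhdsWithin_of_tendsto_nhds
    apply Continuous.tendsto
    fun_prop
  have h2 : Tendsto (fun r : ℝ => C + ∑ n ∈ Finset.range N, β n * r ^ (2 * n) + D) (𝓝[<] 1)
      (𝓝 (C + ∑ n ∈ Finset.range N, β n * (1 : ℝ) ^ (2 * n) + D)) := by
    apply tendsto_nhdsWithin_of_tendsto_nhds
    apply Continuous.tendsto
    fun_prop
  have h3 := le_of_tendsto_of_tendsto h1 h2 (by
    filter_upwards [Ioo_mem_nhdsLT (show (0 : ℝ) < 1 by norm_num)] with r hr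
    exact h r hr.1 hr.2)
  simpa using h3

/-- the tail bound without weights -/
lemma tail_bound_one {a : ℕ → ℂ} {s : ℂ → ℂ} (hs : DifferentiableOn ℂ s (ball 0 1))
    (hb : ∀ z ∈ ball (0 : ℂ) 1, ‖s z‖ ≤ 1) (ha : PS a s) (N : ℕ) :
    ∑ n ∈ Finset.range N, ‖a (n + 1)‖ ^ 2 ≤ 1 - ‖a 0‖ ^ 2 := by
  have h1 : ∑ n ∈ Finset.range (N + 1), ‖a n‖ ^ 2 ≤ 1 := by
    have := finite_limit (N := N + 1) (α := fun n => ‖a n‖ ^ 2) (β := fun _ => 0) (C := 1) (D := 0)
      (fun r hr0 hr => by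
        have h2 := compare ha (PS.const 1) hs.continuousOn continuousOn_const hr0.le hr
          (fun z hz => by rw [norm_one]; exact hb z (by simpa [hz] using hr))
        have h3 : ∑' n, ‖if n = 0 then (1 : ℂ) else 0‖ ^ 2 * r ^ (2 * n) = 1 := by
          rw [tsum_eq_single 0 (fun n hn => by simp [hn])]
          simp
        rw [h3] at h2
        have h4 := (ha.summable_sq hr0.le hr).sum_le_tsum (Finset.range (N + 1))
          fun n _ => by positivity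
        simp only [zero_mul, Finset.sum_const_zero, add_zero]
        exact h4.trans h2)
    simpa using this
  rw [Finset.sum_range_succ'] at h1
  linarith

end Pool.Agent.N284.Bohr
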