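import Mathlib

set_option autoImplicit false

namespace Pool.Agent.N284.Bohr

/-- The `n`-th Taylor coefficient of `f` at the origin. -/
noncomputable def coeff (f : ℂ → ℂ) (n : ℕ) : ℂ := iteratedDeriv n f 0 / (n.factorial : ℂ)

/-- The supremum norm over the unit disk. -/
noncomputable def supNorm (h : ℂ → ℂ) : ℝ := ⨆ z : Metric.ball (0 : ℂ) 1, ‖h z‖

/-- The class `𝓕_K`: the harmonic mappings `f = h + conj g` of the unit disk, given by their analytic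
parts `h` and `g`, with `h` bounded, `h(0) = g(0) = 0` and `|g'| ≤ k |h'|`, `k = (K-1)/(K+1)`. -/
structure InClass (K : ℝ) (h g : ℂ → ℂ) : Prop where
  analytic_h : DifferentiableOn ℂ h (Metric.ball 0 1)
  analytic_g : DifferentiableOn ℂ g (Metric.ball 0 1)
  h_zero : h 0 = 0
  g_zero : g 0 = 0
  bounded : ∃ M : ℝ, ∀ z ∈ Metric.ball (0 : ℂ) 1, ‖h z‖ ≤ M
  dilatation : ∀ z ∈ Metric.ball (0 : ℂ) 1, ‖deriv g z‖ ≤ (K - 1) / (K + 1) * ‖deriv h z‖

/-- The Bohr inequality at `r`: the sum of `(|aₙ| + |bₙ|) rⁿ` over `n ≥ 1`, in `[0, ∞]`, is at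
most `‖h‖_∞`. -/
def BohrIneq (h g : ℂ → ℂ) (r : ℝ) : Prop :=
  ∑' n : ℕ, ENNReal.ofReal ((‖coeff h (n + 1)‖ + ‖coeff g (n + 1)‖) * r ^ (n + 1)) ≤
    ENNReal.ofReal (supNorm h)

/-- The conjectured radius. -/
noncomputable def rK (K : ℝ) : ℝ := 1 / 4 * Real.sqrt (7 / 2 - 1 / (2 * K ^ 2) + 5 / K)

end Pool.Agent.N284.Bohr
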