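import Mathlib

/-! The real inequalities. -/

set_option autoImplicit false

namespace Pool.Agent.N284.Bohr

lemma disc_pos {σ : ℝ} (h0 : 0 ≤ σ) (h1 : σ ≤ 1 / 4) :
    0 ≤ 0.75 * σ - 3.265625 * σ ^ 2 + 0.8125 * σ ^ 3 + 1.71875 * σ ^ 4 - 0.0625 * σ ^ 5
      - 0.015625 * σ ^ 6 := by
  have e : 0.75 * σ - 3.265625 * σ ^ 2 + 0.8125 * σ ^ 3 + 1.71875 * σ ^ 4 - 0.0625 * σ ^ 5
      - 0.015625 * σ ^ 6 = σ * (0.75 - 3.265625 * σ + 0.8125 * σ ^ 2 + 1.71875 * σ ^ 3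
        - 0.0625 * σ ^ 4 - 0.015625 * σ ^ 5) := by ring
  rw [e]
  apply mul_nonneg h0
  have h2 : σ / 2 - 1 / 16 ≤ σ ^ 2 := by nlinarith [sq_nonneg (σ - 1 / 4)]
  have h3 : 3 / 16 * σ - 2 / 64 ≤ σ ^ 3 := by
    nlinarith [mul_nonneg (by linarith : 0 ≤ σ + 1 / 2) (sq_nonneg (σ - 1 / 4))]
  have h4 : σ ^ 4 ≤ 1 / 256 := by
    calc σ ^ 4 ≤ (1 / 4) ^ 4 := by gcongr
      _ = _ := by norm_num
  have h5 : σ ^ 5 ≤ 1 / 1024 := by
    calc σ ^ 5 ≤ (1 / 4) ^ 5 := by gcongr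
      _ = _ := by norm_num
  linarith

lemma D_nonneg {s u : ℝ} (h0 : 1 / 2 ≤ s) (h1 : s ≤ 5 / 8) :
    0 ≤ (3 - 4 * s) * (u ^ 2 - u + s ^ 2) -
      (2 * s - 1) * (1 - u) * (u + (1 - 2 * s ^ 2) / 4) := by
  obtain ⟨σ, hσ⟩ : ∃ σ, σ = 2 * s - 1 := ⟨_, rfl⟩
  have hs : s = (1 + σ) / 2 := by linarith
  have hd := disc_pos (σ := σ) (by linarith) (by linarith)
  subst hs
  have hpos : (0 : ℝ) < 1 - σ := by linarith
  have key : 0 ≤ 4 * (1 - σ) * ((3 - 4 * ((1 + σ) / 2)) * (u ^ 2 - u + ((1 + σ) / 2) ^ 2) -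
      (2 * ((1 + σ) / 2) - 1) * (1 - u) * (u + (1 - 2 * ((1 + σ) / 2) ^ 2) / 4)) := by
    have e : 4 * (1 - σ) * ((3 - 4 * ((1 + σ) / 2)) * (u ^ 2 - u + ((1 + σ) / 2) ^ 2) -
      (2 * ((1 + σ) / 2) - 1) * (1 - u) * (u + (1 - 2 * ((1 + σ) / 2) ^ 2) / 4)) =
      (2 * (1 - σ) * u - (1 - 1.125 * σ + 0.25 * σ ^ 2 + 0.125 * σ ^ 3)) ^ 2 +
      (0.75 * σ - 3.265625 * σ ^ 2 + 0.8125 * σ ^ 3 + 1.71875 * σ ^ 4 - 0.0625 * σ ^ 5
      - 0.015625 * σ ^ 6) := by ring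
    rw [e]
    positivity
  exact nonneg_of_mul_nonneg_right key (by linarith)

lemma Lq {q B x y r : ℝ} (hq : 0 ≤ q) (hB : 0 ≤ B) (hy : 0 ≤ y) (hyx : y ≤ x) (hr : 0 ≤ r)
    (h : q * x ≤ 4 * r * B) :
    q * Real.sqrt (B ^ 2 + (x ^ 2 - y ^ 2) / 4) ≤ q * B + (x - y) * r := by
  have hZ : 0 ≤ B ^ 2 + (x ^ 2 - y ^ 2) / 4 := by nlinarith
  have h1 : (q * Real.sqrt (B ^ 2 + (x ^ 2 - y ^ 2) / 4)) ^ 2 ≤ (q * B + (x - y) * r) ^ 2 := by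
    rw [mul_pow, Real.sq_sqrt hZ]
    have h2 : q * (x + y) / 4 ≤ 2 * r * B := by nlinarith
    have h3 : q * (x - y) * (q * (x + y) / 4) ≤ q * (x - y) * (2 * r * B) := by
      apply mul_le_mul_of_nonneg_left h2
      exact mul_nonneg hq (by linarith)
    nlinarith [sq_nonneg ((x - y) * r)]
  have h4 : 0 ≤ q * B + (x - y) * r := by
    have := mul_nonneg (sub_nonneg.mpr hyx) hr
    positivity
  exact abs_le_of_sq_le_sq' h1 h4 |>.2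

lemma caseA {s r k x y q : ℝ} (hs0 : 1 / 2 ≤ s) (hr0 : 0 < r)
    (hr : r ^ 2 = 1 - 2 * s ^ 2) (hk : (1 + k) * (3 - 4 * s) = 1) (hk0 : 0 ≤ k)
    (hy : 0 ≤ y) (hyx : y ≤ x) (hxr : x ≤ r) (hq : 0 ≤ q) (hq2 : q ^ 2 * (1 - r ^ 2) = r ^ 4) :
    (x * r + q * Real.sqrt (1 - x ^ 2)) +
      k * (y * r + q * Real.sqrt ((1 - x ^ 2) + (x ^ 2 - y ^ 2) / 4)) ≤ 1 := by
  have hx0 : 0 ≤ x := hy.trans hyx
  have hr2 : r ^ 2 ≤ 1 / 2 := by nlinarith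
  have hx2 : x ^ 2 ≤ 1 / 2 := le_trans (by gcongr) hr2
  have hA : 0 ≤ 1 - x ^ 2 := by linarith
  set B := Real.sqrt (1 - x ^ 2) with hB
  have hB0 : 0 ≤ B := Real.sqrt_nonneg _
  have hB2 : B ^ 2 = 1 - x ^ 2 := Real.sq_sqrt hA
  have h1r : 0 < 1 - r ^ 2 := by linarith
  have P1 : q * B ≤ r * (2 * r - x) := by
    have h1 : (q * B) ^ 2 ≤ (r * (2 * r - x)) ^ 2 := by
      have h2 : (q * B) ^ 2 * (1 - r ^ 2) ≤ (r * (2 * r - x)) ^ 2 * (1 - r ^ 2) := by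
        have e1 : (q * B) ^ 2 * (1 - r ^ 2) = r ^ 2 * (r ^ 2 * (1 - x ^ 2)) := by
          rw [mul_pow, hB2]
          calc q ^ 2 * (1 - x ^ 2) * (1 - r ^ 2) = (q ^ 2 * (1 - r ^ 2)) * (1 - x ^ 2) := by ring
            _ = _ := by rw [hq2]; ring
        have e2 : (r * (2 * r - x)) ^ 2 * (1 - r ^ 2) = r ^ 2 * ((2 * r - x) ^ 2 * (1 - r ^ 2)) := by
          ring
        rw [e1, e2]
        apply mul_le_mul_of_nonneg_left _ (sq_nonneg r)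
        have e3 : (2 * r - x) ^ 2 * (1 - r ^ 2) - r ^ 2 * (1 - x ^ 2) =
            2 * r * (r - x) * (1 - 2 * r ^ 2) + (r - x) ^ 2 := by ring
        have h3 : 0 ≤ 2 * r * (r - x) * (1 - 2 * r ^ 2) := by
          apply mul_nonneg (mul_nonneg (by positivity) (by linarith)) (by linarith)
        nlinarith [sq_nonneg (r - x)]
      exact le_of_mul_le_mul_right h2 h1r
    have h4 : 0 ≤ r * (2 * r - x) := mul_nonneg hr0.le (by linarith)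
    exact abs_le_of_sq_le_sq' h1 h4 |>.2
  have P2 : q * x ≤ 4 * r * B := by
    have h1 : (q * x) ^ 2 ≤ (4 * r * B) ^ 2 := by
      have h2 : (q * x) ^ 2 * (1 - r ^ 2) ≤ (4 * r * B) ^ 2 * (1 - r ^ 2) := by
        have e1 : (q * x) ^ 2 * (1 - r ^ 2) = r ^ 2 * (r ^ 2 * x ^ 2) := by
          calc (q * x) ^ 2 * (1 - r ^ 2) = (q ^ 2 * (1 - r ^ 2)) * x ^ 2 := by ring
            _ = _ := by rw [hq2]; ring
        have e2 : (4 * r * B) ^ 2 * (1 - r ^ 2) = r ^ 2 * (16 * (1 - x ^ 2) * (1 - r ^ 2)) := by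
          rw [mul_pow, hB2]; ring
        rw [e1, e2]
        apply mul_le_mul_of_nonneg_left _ (sq_nonneg r)
        nlinarith [mul_nonneg (sub_nonneg.mpr hr2) (sub_nonneg.mpr hx2), sq_nonneg r, sq_nonneg x]
      exact le_of_mul_le_mul_right h2 h1r
    have h4 : 0 ≤ 4 * r * B := by positivity
    exact abs_le_of_sq_le_sq' h1 h4 |>.2
  have P3 := Lq hq hB0 hy hyx hr0.le P2
  rw [hB2] at P3
  have h2r : 2 * r ^ 2 ≤ 3 - 4 * s := by nlinarith [sq_nonneg (2 * s - 1)]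
  have h5 : x * r + q * B ≤ 3 - 4 * s := by nlinarith
  have h6 : y * r + q * Real.sqrt ((1 - x ^ 2) + (x ^ 2 - y ^ 2) / 4) ≤ 3 - 4 * s := by
    nlinarith
  calc (x * r + q * B) + k * (y * r + q * Real.sqrt ((1 - x ^ 2) + (x ^ 2 - y ^ 2) / 4))
      ≤ (3 - 4 * s) + k * (3 - 4 * s) := by gcongr
    _ = 1 := by linarith

lemma caseB {s r k x y q : ℝ} (hs0 : 1 / 2 ≤ s) (hs1 : s ≤ 5 / 8) (hr0 : 0 < r)
    (hr : r ^ 2 = 1 - 2 * s ^ 2) (hk : (1 + k) * (3 - 4 * s) = 1) (hk0 : 0 ≤ k)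
    (hy : 0 ≤ y) (hyx : y ≤ x) (hx1 : x ≤ 1) (hq : 0 ≤ q)
    (hq2 : q ^ 2 * (1 - x * r) = r ^ 4) :
    (x * r + q * Real.sqrt ((1 - x ^ 2) ^ 2 / (1 - x * r))) +
      k * (y * r + q * Real.sqrt ((1 - x ^ 2) ^ 2 / (1 - x * r) + (x ^ 2 - y ^ 2) / 4)) ≤ 1 := by
  have hx0 : 0 ≤ x := hy.trans hyx
  have hr2 : r ^ 2 ≤ 1 / 2 := by nlinarith
  have hr1 : r < 1 := by nlinarith
  obtain ⟨u, hu⟩ : ∃ u, u = 1 - x * r := ⟨_, rfl⟩
  have hu0 : 0 < u := by rw [hu]; nlinarith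
  rw [← hu] at hq2 ⊢
  have hc0 : 0 ≤ 1 - x ^ 2 := by nlinarith
  set w := Real.sqrt u with hw
  have hw0 : 0 < w := Real.sqrt_pos.mpr hu0
  have hw2 : w ^ 2 = u := Real.sq_sqrt hu0.le
  have hqw : q = r ^ 2 / w := by
    have h1 : (q * w) ^ 2 = (r ^ 2) ^ 2 := by rw [mul_pow, hw2, hq2]; ring
    have h2 : q * w = r ^ 2 := by
      have := abs_eq_abs.mpr (sq_eq_sq_iff_eq_or_eq_neg.mp h1)
      rwa [abs_of_nonneg (by positivity), abs_of_nonneg (by positivity)] at this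
    rw [← h2]; field_simp
  have hA2 : (1 - x ^ 2) ^ 2 / u = ((1 - x ^ 2) / w) ^ 2 := by rw [div_pow, hw2]
  have hB : Real.sqrt ((1 - x ^ 2) ^ 2 / u) = (1 - x ^ 2) / w := by
    rw [hA2, Real.sqrt_sq (by positivity)]
  rw [hB]
  have hM : x * r + q * ((1 - x ^ 2) / w) = 3 - 2 * u - 2 * s ^ 2 / u := by
    have h1 : q * ((1 - x ^ 2) / w) = r ^ 2 * (1 - x ^ 2) / u := by
      rw [hqw, ← hw2]; field_simp
    rw [h1]
    have h2 : x * r = 1 - u := by linarith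
    have h3 : r ^ 2 * (1 - x ^ 2) = r ^ 2 - (x * r) ^ 2 := by ring
    rw [h3, h2, hr]
    field_simp
    ring
  have hM2 : 3 - 2 * u - 2 * s ^ 2 / u ≤ 3 - 4 * s := by
    have h1 : 4 * s ≤ 2 * u + 2 * s ^ 2 / u := by
      rw [← sub_nonneg]
      have : 2 * u + 2 * s ^ 2 / u - 4 * s = 2 * (u - s) ^ 2 / u := by field_simp; ring
      rw [this]; positivity
    linarith
  rw [hM]
  by_cases hcase : r * x ≤ 4 * (1 - x ^ 2)
  · have P2 : q * x ≤ 4 * r * ((1 - x ^ 2) / w) := by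
      rw [hqw, div_mul_eq_mul_div, ← mul_div_assoc]
      apply div_le_div_of_nonneg_right _ hw0.le
      nlinarith
    have P3 := Lq hq (by positivity) hy hyx hr0.le P2
    rw [← hA2] at P3
    have h6 : y * r + q * Real.sqrt ((1 - x ^ 2) ^ 2 / u + (x ^ 2 - y ^ 2) / 4) ≤ 3 - 4 * s := by
      nlinarith
    calc (3 - 2 * u - 2 * s ^ 2 / u) +
        k * (y * r + q * Real.sqrt ((1 - x ^ 2) ^ 2 / u + (x ^ 2 - y ^ 2) / 4))
        ≤ (3 - 4 * s) + k * (3 - 4 * s) := by gcongr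
      _ = 1 := by linarith
  · push Not at hcase
    set Z := (1 - x ^ 2) ^ 2 / u + (x ^ 2 - y ^ 2) / 4 with hZ
    have hZ0 : 0 ≤ Z := by
      have h1 : 0 ≤ x ^ 2 - y ^ 2 := by nlinarith
      positivity
    set z := Real.sqrt Z with hz
    have hz0 : 0 ≤ z := Real.sqrt_nonneg _
    have hz2 : z ^ 2 = Z := Real.sq_sqrt hZ0
    have hq2' : q ^ 2 = r ^ 4 / u := by rw [eq_div_iff hu0.ne']; exact hq2
    have hG : y * r + q * z ≤ x * r * (1 + r ^ 2 / (4 * u)) := by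
      have h1 : (y * r + q * z) ^ 2 ≤ (r ^ 2 + q ^ 2 / 4) * (y ^ 2 + 4 * z ^ 2) := by
        have e : (r ^ 2 + q ^ 2 / 4) * (y ^ 2 + 4 * z ^ 2) - (y * r + q * z) ^ 2 =
            (r * (2 * z) - q / 2 * y) ^ 2 := by ring
        have e2 := sq_nonneg (r * (2 * z) - q / 2 * y)
        linarith
      have h2 : y ^ 2 + 4 * z ^ 2 = x ^ 2 + 4 * (1 - x ^ 2) ^ 2 / u := by
        rw [hz2, hZ]; ring
      have h3 : x ^ 2 + 4 * (1 - x ^ 2) ^ 2 / u ≤ x ^ 2 * (1 + r ^ 2 / (4 * u)) := by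
        have h4 : 16 * (1 - x ^ 2) ^ 2 ≤ r ^ 2 * x ^ 2 := by
          have : (4 * (1 - x ^ 2)) ^ 2 ≤ (r * x) ^ 2 := pow_le_pow_left₀ (by linarith) hcase.le 2
          calc 16 * (1 - x ^ 2) ^ 2 = (4 * (1 - x ^ 2)) ^ 2 := by ring
            _ ≤ (r * x) ^ 2 := this
            _ = r ^ 2 * x ^ 2 := by ring
        have h5 : x ^ 2 * (1 + r ^ 2 / (4 * u)) - (x ^ 2 + 4 * (1 - x ^ 2) ^ 2 / u) =
            (r ^ 2 * x ^ 2 - 16 * (1 - x ^ 2) ^ 2) / (4 * u) := by field_simp; ring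
        have h6 : 0 ≤ (r ^ 2 * x ^ 2 - 16 * (1 - x ^ 2) ^ 2) / (4 * u) :=
          div_nonneg (by linarith) (by linarith)
        linarith
      have h7 : r ^ 2 + q ^ 2 / 4 = r ^ 2 * (1 + r ^ 2 / (4 * u)) := by
        rw [hq2']; field_simp
      have h8 : (y * r + q * z) ^ 2 ≤ (x * r * (1 + r ^ 2 / (4 * u))) ^ 2 := by
        calc (y * r + q * z) ^ 2 ≤ (r ^ 2 + q ^ 2 / 4) * (y ^ 2 + 4 * z ^ 2) := h1
          _ = r ^ 2 * (1 + r ^ 2 / (4 * u)) * (x ^ 2 + 4 * (1 - x ^ 2) ^ 2 / u) := by rw [h7, h2]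
          _ ≤ r ^ 2 * (1 + r ^ 2 / (4 * u)) * (x ^ 2 * (1 + r ^ 2 / (4 * u))) := by
              gcongr
          _ = _ := by ring
      have h9 : 0 ≤ x * r * (1 + r ^ 2 / (4 * u)) := by positivity
      exact abs_le_of_sq_le_sq' h8 h9 |>.2
    have hD := D_nonneg (u := u) hs0 hs1
    have hden : 0 < 3 - 4 * s := by linarith
    have hkv : k = (4 * s - 2) / (3 - 4 * s) := by
      rw [eq_div_iff hden.ne']; linarith
    have hfin : (3 - 2 * u - 2 * s ^ 2 / u) + k * (x * r * (1 + r ^ 2 / (4 * u))) ≤ 1 := by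
      have h2 : x * r = 1 - u := by linarith
      rw [h2, hkv, hr, ← sub_nonneg]
      have e : 1 - ((3 - 2 * u - 2 * s ^ 2 / u) + (4 * s - 2) / (3 - 4 * s) *
          ((1 - u) * (1 + (1 - 2 * s ^ 2) / (4 * u)))) =
          2 * ((3 - 4 * s) * (u ^ 2 - u + s ^ 2) -
      (2 * s - 1) * (1 - u) * (u + (1 - 2 * s ^ 2) / 4)) / (u * (3 - 4 * s)) := by
        have hne : 3 - 4 * s ≠ 0 := hden.ne'
        have hune : u ≠ 0 := hu0.ne'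
        rw [eq_div_iff (mul_ne_zero hune hne)]
        have e1 : (4 * s - 2) / (3 - 4 * s) * ((1 - u) * (1 + (1 - 2 * s ^ 2) / (4 * u))) *
            (u * (3 - 4 * s)) = (4 * s - 2) * ((1 - u) * (u + (1 - 2 * s ^ 2) / 4)) := by
          have e2 : (4 * s - 2) / (3 - 4 * s) * (3 - 4 * s) = 4 * s - 2 := div_mul_cancel₀ _ hne
          have e3 : (1 + (1 - 2 * s ^ 2) / (4 * u)) * u = u + (1 - 2 * s ^ 2) / 4 := by
            field_simp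
          calc (4 * s - 2) / (3 - 4 * s) * ((1 - u) * (1 + (1 - 2 * s ^ 2) / (4 * u))) *
            (u * (3 - 4 * s)) = ((4 * s - 2) / (3 - 4 * s) * (3 - 4 * s)) *
              ((1 - u) * ((1 + (1 - 2 * s ^ 2) / (4 * u)) * u)) := by ring
            _ = _ := by rw [e2, e3]
        have e4 : 2 * s ^ 2 / u * u = 2 * s ^ 2 := div_mul_cancel₀ _ hune
        rw [sub_mul, add_mul, e1]
        have e5 : (3 - 2 * u - 2 * s ^ 2 / u) * (u * (3 - 4 * s)) =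
            ((3 - 2 * u) * u - 2 * s ^ 2) * (3 - 4 * s) := by
          linear_combination -(3 - 4 * s) * e4
        rw [e5]
        ring
      rw [e]
      exact div_nonneg (by linarith) (by positivity)
    calc (3 - 2 * u - 2 * s ^ 2 / u) + k * (y * r + q * z)
        ≤ (3 - 2 * u - 2 * s ^ 2 / u) + k * (x * r * (1 + r ^ 2 / (4 * u))) := by gcongr
      _ ≤ 1 := hfin

end Pool.Agent.N284.Bohr
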