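import Pool.Agent.N284.Bohr.Quot
import Pool.Agent.N284.Bohr.Ineq

/-! The inequality. -/

set_option autoImplicit false

open Filter Topology MeasureTheory Set Metric

namespace Pool.Agent.N284.Bohr

lemma coeff_deriv (f : ℂ → ℂ) (n : ℕ) : coeff (deriv f) n = ((n : ℂ) + 1) * coeff f (n + 1) := by
  unfold coeff
  rw [iteratedDeriv_succ', Nat.factorial_succ]
  have h1 : ((n : ℂ) + 1) ≠ 0 := by exact_mod_cast Nat.succ_ne_zero n
  have h2 : ((n.factorial : ℕ) : ℂ) ≠ 0 := by exact_mod_cast n.factorial_ne_zero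
  push_cast
  field_simp

lemma PS.mul_X {c : ℕ → ℂ} {s : ℂ → ℂ} (h : PS c s) :
    PS (fun n => Nat.casesOn n 0 c) (fun z => z * s z) := by
  intro z hz
  have h1 := (h z hz).mul_left z
  rw [← hasSum_nat_add_iff' 1]
  simp only [Finset.range_one, Finset.sum_singleton]
  show HasSum _ (z * s z - (0 : ℂ) * z ^ 0)
  rw [zero_mul, sub_zero]
  refine h1.congr_fun fun n => ?_
  show c n * z ^ (n + 1) = z * (c n * z ^ n)
  ring

lemma abel {v D : ℕ → ℝ} (hv : Antitone v)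
    (hD : ∀ N, 0 ≤ ∑ n ∈ Finset.range N, D n) (N : ℕ) :
    v N * ∑ n ∈ Finset.range N, D n ≤ ∑ n ∈ Finset.range N, v n * D n := by
  induction N with
  | zero => simp
  | succ N ih =>
    rw [Finset.sum_range_succ (fun n => v n * D n)]
    have h1 : v (N + 1) * ∑ n ∈ Finset.range (N + 1), D n ≤
        v N * ∑ n ∈ Finset.range (N + 1), D n :=
      mul_le_mul_of_nonneg_right (hv (Nat.le_succ N)) (hD (N + 1))
    rw [Finset.sum_range_succ D, mul_add (v N)] at h1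
    rw [Finset.sum_range_succ D]
    linarith

/-- The weights -/
noncomputable def wt (ρ : ℝ) (n : ℕ) : ℝ := Nat.casesOn n (1 / 4) fun n => ρ ^ n / ((n : ℝ) + 2) ^ 2

lemma wt_anti {ρ : ℝ} (h0 : 0 ≤ ρ) (h1 : ρ ≤ 1) : Antitone (wt ρ) := by
  refine antitone_nat_of_succ_le fun n => ?_
  cases n with
  | zero => simp [wt]; norm_num
  | succ n =>
    show ρ ^ (n + 1) / (((n + 1 : ℕ) : ℝ) + 2) ^ 2 ≤ ρ ^ n / ((n : ℝ) + 2) ^ 2
    have : ρ ^ (n + 1) ≤ ρ ^ n := pow_le_pow_of_le_one h0 h1 (Nat.le_succ n)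
    have h2 : ((n : ℝ) + 2) ≤ (((n + 1 : ℕ) : ℝ) + 2) := by push_cast; linarith
    gcongr

lemma wt_nonneg {ρ : ℝ} (h0 : 0 ≤ ρ) (n : ℕ) : 0 ≤ wt ρ n := by
  cases n with
  | zero => simp [wt]
  | succ n => show 0 ≤ ρ ^ n / ((n : ℝ) + 2) ^ 2; positivity

/-- the weighted domination -/
lemma weighted {h g : ℂ → ℂ} {k : ℝ} (hk : 0 ≤ k) (hh : DifferentiableOn ℂ h (ball 0 1))
    (hg : DifferentiableOn ℂ g (ball 0 1))
    (hd : ∀ z ∈ ball (0 : ℂ) 1, ‖deriv g z‖ ≤ k * ‖deriv h z‖) {ρ : ℝ} (h0 : 0 ≤ ρ) (h1 : ρ ≤ 1)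
    (N : ℕ) :
    ‖coeff g 1‖ ^ 2 / 4 + ∑ n ∈ Finset.range N, ρ ^ n * ‖coeff g (n + 2)‖ ^ 2 ≤
      k ^ 2 * (‖coeff h 1‖ ^ 2 / 4 + ∑ n ∈ Finset.range N, ρ ^ n * ‖coeff h (n + 2)‖ ^ 2) := by
  have hG := hg.deriv isOpen_ball
  have hH := hh.deriv isOpen_ball
  have hdom := fun N => dominate hG hH hk hd (PS.of_diff hG) (PS.of_diff hH) N
  have hab := abel (v := wt ρ) (D := fun n => k ^ 2 * ‖coeff (deriv h) n‖ ^ 2 -
    ‖coeff (deriv g) n‖ ^ 2) (wt_anti h0 h1) (fun N => by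
      rw [Finset.sum_sub_distrib]; linarith [hdom N]) (N + 1)
  have h2 : 0 ≤ wt ρ (N + 1) * ∑ n ∈ Finset.range (N + 1), (k ^ 2 * ‖coeff (deriv h) n‖ ^ 2 -
    ‖coeff (deriv g) n‖ ^ 2) := mul_nonneg (wt_nonneg h0 _) (by
      rw [Finset.sum_sub_distrib]; linarith [hdom (N + 1)])
  have h3 := h2.trans hab
  have e : ∀ f : ℂ → ℂ, ∑ n ∈ Finset.range (N + 1), wt ρ n * ‖coeff (deriv f) n‖ ^ 2 =
      ‖coeff f 1‖ ^ 2 / 4 + ∑ n ∈ Finset.range N, ρ ^ n * ‖coeff f (n + 2)‖ ^ 2 := by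
    intro f
    rw [Finset.sum_range_succ', add_comm]
    congr 1
    · rw [coeff_deriv]
      simp [wt]
      ring
    · refine Finset.sum_congr rfl fun n _ => ?_
      show ρ ^ n / ((n : ℝ) + 2) ^ 2 * ‖coeff (deriv f) (n + 1)‖ ^ 2 = _
      rw [coeff_deriv, norm_mul]
      have h4 : ‖(((n + 1 : ℕ) : ℂ) + 1)‖ = (n : ℝ) + 2 := by
        have : (((n + 1 : ℕ) : ℂ) + 1) = (((n : ℝ) + 2 : ℝ) : ℂ) := by push_cast; ring
        rw [this, Complex.norm_real, Real.norm_of_nonneg (by positivity)]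
      rw [h4]
      field_simp
  have h4 : ∑ n ∈ Finset.range (N + 1), wt ρ n * (k ^ 2 * ‖coeff (deriv h) n‖ ^ 2 -
      ‖coeff (deriv g) n‖ ^ 2) = k ^ 2 * ∑ n ∈ Finset.range (N + 1), wt ρ n * ‖coeff (deriv h) n‖ ^ 2 -
      ∑ n ∈ Finset.range (N + 1), wt ρ n * ‖coeff (deriv g) n‖ ^ 2 := by
    rw [Finset.mul_sum, ← Finset.sum_sub_distrib]
    refine Finset.sum_congr rfl fun n _ => ?_
    ring
  rw [h4, e h, e g] at h3
  linarith

/-- the Cauchy-Schwarz step -/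
lemma cauchy {c : ℕ → ℝ} {r ρ q : ℝ} (hρ : 0 < ρ) (hrρ : r ^ 2 < ρ) (hq : 0 ≤ q)
    (hq2 : q ^ 2 * (1 - r ^ 2 / ρ) = r ^ 4) {S : ℝ} (N : ℕ)
    (hS : ∑ n ∈ Finset.range N, ρ ^ n * c n ^ 2 ≤ S) :
    ∑ n ∈ Finset.range N, c n * r ^ (n + 2) ≤ q * Real.sqrt S := by
  have h1 := Finset.sum_sq_le_sum_mul_sum_of_sq_le_mul (R := ℝ) (Finset.range N)
    (r := fun n => c n * r ^ (n + 2)) (f := fun n => ρ ^ n * c n ^ 2)
    (g := fun n => r ^ 4 * (r ^ 2 / ρ) ^ n) (fun n _ => by positivity) (fun n _ => by positivity)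
    (fun n _ => by
      apply le_of_eq
      rw [div_pow]
      field_simp
      ring)
  have h2 : ∑ n ∈ Finset.range N, r ^ 4 * (r ^ 2 / ρ) ^ n ≤ q ^ 2 := by
    have h3 : r ^ 2 / ρ < 1 := (div_lt_one hρ).mpr hrρ
    have h4 : 0 ≤ r ^ 2 / ρ := by positivity
    rw [← Finset.mul_sum]
    have h5 : ∑ n ∈ Finset.range N, (r ^ 2 / ρ) ^ n ≤ (1 - r ^ 2 / ρ)⁻¹ := by
      rw [← tsum_geometric_of_lt_one h4 h3]
      exact (summable_geometric_of_lt_one h4 h3).sum_le_tsum _ fun n _ => by positivity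
    have h6 : 0 < 1 - r ^ 2 / ρ := by linarith
    calc r ^ 4 * ∑ n ∈ Finset.range N, (r ^ 2 / ρ) ^ n ≤ r ^ 4 * (1 - r ^ 2 / ρ)⁻¹ := by gcongr
      _ = q ^ 2 := by rw [← hq2, mul_assoc, mul_inv_cancel₀ h6.ne', mul_one]
  have hS0 : 0 ≤ S := le_trans (Finset.sum_nonneg fun n _ => by positivity) hS
  have h3 : (∑ n ∈ Finset.range N, c n * r ^ (n + 2)) ^ 2 ≤ (q * Real.sqrt S) ^ 2 := by
    rw [mul_pow, Real.sq_sqrt hS0]
    refine h1.trans ?_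
    rw [mul_comm]
    exact mul_le_mul h2 hS (Finset.sum_nonneg fun n _ => by positivity) (sq_nonneg q)
  exact abs_le_of_sq_le_sq' h3 (mul_nonneg hq (Real.sqrt_nonneg _)) |>.2

lemma partial_bound {h g : ℂ → ℂ} {k : ℝ} (hk : 0 < k) (hh : DifferentiableOn ℂ h (ball 0 1))
    (hg : DifferentiableOn ℂ g (ball 0 1))
    (hd : ∀ z ∈ ball (0 : ℂ) 1, ‖deriv g z‖ ≤ k * ‖deriv h z‖) {ρ r q A : ℝ} (hρ : 0 < ρ)
    (hρ1 : ρ ≤ 1) (hrρ : r ^ 2 < ρ) (hq : 0 ≤ q)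
    (hq2 : q ^ 2 * (1 - r ^ 2 / ρ) = r ^ 4)
    (hA : ∀ N, ∑ n ∈ Finset.range N, ρ ^ n * ‖coeff h (n + 2)‖ ^ 2 ≤ A) (N : ℕ) :
    ∃ y, 0 ≤ y ∧ y ≤ ‖coeff h 1‖ ∧
    ∑ n ∈ Finset.range (N + 1), (‖coeff h (n + 1)‖ + ‖coeff g (n + 1)‖) * r ^ (n + 1) ≤
      (‖coeff h 1‖ * r + q * Real.sqrt A) +
        k * (y * r + q * Real.sqrt (A + (‖coeff h 1‖ ^ 2 - y ^ 2) / 4)) := by
  refine ⟨‖coeff g 1‖ / k, by positivity, ?_, ?_⟩
  · rw [div_le_iff₀ hk]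
    have := hd 0 (by simp)
    have e : ∀ f : ℂ → ℂ, coeff f 1 = deriv f 0 := by
      intro f; unfold coeff; simp
    rw [e, e, mul_comm]; exact this
  · rw [Finset.sum_range_succ']
    have e : ∑ n ∈ Finset.range N, (‖coeff h (n + 1 + 1)‖ + ‖coeff g (n + 1 + 1)‖) * r ^ (n + 1 + 1) =
        ∑ n ∈ Finset.range N, ‖coeff h (n + 2)‖ * r ^ (n + 2) +
        ∑ n ∈ Finset.range N, ‖coeff g (n + 2)‖ * r ^ (n + 2) := by
      rw [← Finset.sum_add_distrib]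
      exact Finset.sum_congr rfl fun n _ => by ring
    rw [e]
    have h1 := cauchy (c := fun n => ‖coeff h (n + 2)‖) hρ hrρ hq hq2 N (hA N)
    have h2 : ∑ n ∈ Finset.range N, ‖coeff g (n + 2)‖ * r ^ (n + 2) ≤ q * Real.sqrt
        (k ^ 2 * (A + (‖coeff h 1‖ ^ 2 - (‖coeff g 1‖ / k) ^ 2) / 4)) := by
      refine cauchy (c := fun n => ‖coeff g (n + 2)‖) hρ hrρ hq hq2 N ?_
      have h3 := weighted hk.le hh hg hd hρ.le hρ1 N
      have h4 := hA N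
      have h5 : k ^ 2 * (‖coeff g 1‖ / k) ^ 2 = ‖coeff g 1‖ ^ 2 := by
        rw [div_pow]; field_simp
      have h6 : k ^ 2 * ∑ n ∈ Finset.range N, ρ ^ n * ‖coeff h (n + 2)‖ ^ 2 ≤ k ^ 2 * A := by gcongr
      linarith
    rw [Real.sqrt_mul (sq_nonneg k), Real.sqrt_sq hk.le] at h2
    have h7 : k * (‖coeff g 1‖ / k * r) = ‖coeff g 1‖ * r := by field_simp
    simp only [zero_add, pow_one]
    linarith

/-- The main estimate for normalized `h`. -/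
lemma main_bound {h g : ℂ → ℂ} {k r s : ℝ} (hk : 0 < k) (hh : DifferentiableOn ℂ h (ball 0 1))
    (hg : DifferentiableOn ℂ g (ball 0 1)) (h0 : h 0 = 0)
    (hb : ∀ z ∈ ball (0 : ℂ) 1, ‖h z‖ ≤ 1)
    (hd : ∀ z ∈ ball (0 : ℂ) 1, ‖deriv g z‖ ≤ k * ‖deriv h z‖)
    (hs0 : 1 / 2 ≤ s) (hs1 : s ≤ 5 / 8) (hr0 : 0 < r)
    (hr : r ^ 2 = 1 - 2 * s ^ 2) (hks : (1 + k) * (3 - 4 * s) = 1) (N : ℕ) :
    ∑ n ∈ Finset.range (N + 1), (‖coeff h (n + 1)‖ + ‖coeff g (n + 1)‖) * r ^ (n + 1) ≤ 1 := by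
  -- the quotient by `z`
  set S : ℂ → ℂ := dslope h 0 with hS
  have hball : ball (0 : ℂ) 1 ∈ 𝓝 (0 : ℂ) := ball_mem_nhds _ one_pos
  have hSd : DifferentiableOn ℂ S (ball 0 1) := (Complex.differentiableOn_dslope hball).mpr hh
  have hSb : ∀ z ∈ ball (0 : ℂ) 1, ‖S z‖ ≤ 1 := by
    intro z hz
    have := Complex.norm_dslope_le_div_of_mapsTo_ball (R₂ := 1) hh (fun w hw => by
      rw [h0, mem_closedBall_zero_iff]; exact hb w hw) hz
    simpa using this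
  have hSh : ∀ z, h z = z * S z := by
    intro z
    have := sub_smul_dslope h 0 z
    rw [h0, sub_zero, sub_zero, smul_eq_mul] at this
    exact this.symm
  have hcoef : ∀ n, coeff h (n + 1) = coeff S n := by
    have h1 : PS (fun n => Nat.casesOn n 0 (coeff S)) h :=
      (PS.of_diff hSd).mul_X.congr fun z _ => (hSh z).symm
    have h2 := (PS.of_diff hh).unique h1
    intro n
    rw [h2]
  have hx1 : ‖coeff h 1‖ ≤ 1 := by
    rw [hcoef 0]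
    have : coeff S 0 = S 0 := by unfold coeff; simp
    rw [this]; exact hSb 0 (by simp)
  have hr2 : r ^ 2 ≤ 1 / 2 := by nlinarith
  have hr1 : r < 1 := by nlinarith
  rcases le_or_gt ‖coeff h 1‖ r with hxr | hxr
  · -- no weights
    have h1r : 0 < 1 - r ^ 2 := by linarith
    have hq2 : (r ^ 2 / Real.sqrt (1 - r ^ 2)) ^ 2 * (1 - r ^ 2) = r ^ 4 := by
      rw [div_pow, Real.sq_sqrt h1r.le]; field_simp
    obtain ⟨y, hy0, hyx, hy⟩ := partial_bound hk hh hg hd (ρ := 1) (r := r)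
      (q := r ^ 2 / Real.sqrt (1 - r ^ 2)) (A := 1 - ‖coeff h 1‖ ^ 2) one_pos le_rfl
      (by linarith) (by positivity) (by rw [div_one]; exact hq2) (fun N => by
        have := tail_bound_one hSd hSb (PS.of_diff hSd) N
        rw [hcoef 0]
        refine le_trans (le_of_eq ?_) this
        refine Finset.sum_congr rfl fun n _ => ?_
        rw [one_pow, one_mul, hcoef (n + 1)]) N
    exact hy.trans (caseA hs0 hr0 hr hks hk.le hy0 hyx hxr (by positivity) hq2)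
  · have hx0 : 0 < ‖coeff h 1‖ := hr0.trans hxr
    have hxr1 : 0 < 1 - ‖coeff h 1‖ * r := by nlinarith
    have hq2 : (r ^ 2 / Real.sqrt (1 - ‖coeff h 1‖ * r)) ^ 2 * (1 - ‖coeff h 1‖ * r) = r ^ 4 := by
      rw [div_pow, Real.sq_sqrt hxr1.le, div_mul_cancel₀ _ hxr1.ne']; ring
    have e1 : r ^ 2 / (r / ‖coeff h 1‖) = ‖coeff h 1‖ * r := by field_simp
    have e2 : ‖coeff S 0‖ ^ 2 * (r / ‖coeff h 1‖) = ‖coeff h 1‖ * r := by
      rw [← hcoef 0]; field_simp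
    have hρ1 : r / ‖coeff h 1‖ < 1 := (div_lt_one hx0).mpr hxr
    obtain ⟨y, hy0, hyx, hy⟩ := partial_bound hk hh hg hd (ρ := r / ‖coeff h 1‖) (r := r)
      (q := r ^ 2 / Real.sqrt (1 - ‖coeff h 1‖ * r))
      (A := (1 - ‖coeff h 1‖ ^ 2) ^ 2 / (1 - ‖coeff h 1‖ * r)) (by positivity) hρ1.le
      (by
        rw [lt_div_iff₀ hx0]
        nlinarith) (by positivity) (by rw [e1]; exact hq2) (fun N => by
        have := tail_bound hSd hSb (PS.of_diff hSd) (ρ := r / ‖coeff h 1‖) (by positivity) hρ1 N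
        rw [e2, ← hcoef 0] at this
        refine le_trans (le_of_eq ?_) this
        refine Finset.sum_congr rfl fun n _ => ?_
        rw [hcoef (n + 1)]) N
    exact hy.trans (caseB hs0 hs1 hr0 hr hks hk.le hy0 hyx hx1 (by positivity) hq2)

end Pool.Agent.N284.Bohr
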