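import Pool.Agent.N284.Bohr.Defs

/-! Power series on the unit disk and Parseval's identity. -/

set_option autoImplicit false

open Filter Topology MeasureTheory Set Metric

namespace Pool.Agent.N284.Bohr

/-- `f` is the sum of the power series with the coefficients `a` on the unit disk -/
def PS (a : ℕ → ℂ) (f : ℂ → ℂ) : Prop := ∀ z : ℂ, ‖z‖ < 1 → HasSum (fun n => a n * z ^ n) (f z)

lemma parseval_aux (c : ℕ → ℂ) (hc : Summable (fun n => ‖c n‖)) (f : ℂ → ℂ)
    (hf : ∀ z : ℂ, ‖z‖ = 1 → HasSum (fun n => c n * z ^ n) (f z)) :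
    HasSum (fun n => ‖c n‖ ^ 2) (Real.circleAverage (fun z => ‖f z‖ ^ 2) 0 1) := by
  set P : ℕ → Polynomial ℂ := fun N => ∑ n ∈ Finset.range N, Polynomial.monomial n (c n) with hP
  have hcoef : ∀ N i, (P N).coeff i = if i < N then c i else 0 := by
    intro N i
    simp [hP, Polynomial.finsetSum_coeff, Polynomial.coeff_monomial]
  have hev : ∀ N z, (P N).eval z = ∑ n ∈ Finset.range N, c n * z ^ n := by
    intro N z
    simp [hP, Polynomial.eval_finsetSum]
  have h1 : ∀ N, Real.circleAverage (fun z => ‖(P N).eval z‖ ^ 2) 0 1 =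
      ∑ n ∈ Finset.range N, ‖c n‖ ^ 2 := by
    intro N
    rw [← Polynomial.sum_sq_norm_coeff_eq_circleAverage]
    have : (P N).support ⊆ Finset.range N := by
      intro i hi
      rw [Polynomial.mem_support_iff, hcoef] at hi
      rw [Finset.mem_range]
      by_contra h
      exact hi (if_neg h)
    rw [Finset.sum_subset this]
    · refine Finset.sum_congr rfl fun i hi => ?_
      rw [hcoef, if_pos (Finset.mem_range.mp hi)]
    · intro i _ hi
      rw [Polynomial.notMem_support_iff.mp hi]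
      simp
  have h2 : Tendsto (fun N => Real.circleAverage (fun z => ‖(P N).eval z‖ ^ 2) 0 1) atTop
      (𝓝 (Real.circleAverage (fun z => ‖f z‖ ^ 2) 0 1)) := by
    unfold Real.circleAverage
    refine Tendsto.const_smul ?_ _
    refine intervalIntegral.tendsto_integral_filter_of_dominated_convergence
      (fun _ => (∑' n, ‖c n‖) ^ 2) ?_ ?_ ?_ ?_
    · refine Eventually.of_forall fun N => ?_
      apply Continuous.aestronglyMeasurable
      have : Continuous (fun x : ℝ => (P N).eval (circleMap 0 1 x)) :=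
        (P N).continuous.comp (continuous_circleMap 0 1)
      exact this.norm.pow 2
    · refine Eventually.of_forall fun N => ?_
      refine Eventually.of_forall fun x _ => ?_
      rw [norm_pow, norm_norm]
      gcongr
      rw [hev]
      refine (norm_sum_le _ _).trans ?_
      refine le_trans (Finset.sum_le_sum fun n _ => ?_) (hc.sum_le_tsum (Finset.range N)
        fun n _ => norm_nonneg _)
      rw [norm_mul, norm_pow]
      simp
    · exact intervalIntegrable_const
    · refine Eventually.of_forall fun x _ => ?_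
      have hx : ‖circleMap 0 1 x‖ = 1 := by simp
      have := (hf _ hx).tendsto_sum_nat
      simp only [hev]
      exact (this.norm.pow 2)
  simp only [h1] at h2
  rw [hasSum_iff_tendsto_nat_of_nonneg (fun n => by positivity)]
  exact h2

lemma PS.summable {a : ℕ → ℂ} {f : ℂ → ℂ} (h : PS a f) {r : ℝ} (hr0 : 0 ≤ r) (hr : r < 1) :
    Summable (fun n => ‖a n‖ * r ^ n) := by
  have h1 : ‖(r : ℂ)‖ < 1 := by rwa [Complex.norm_real, Real.norm_of_nonneg hr0]
  have h2 := (h (r : ℂ) h1).summable.norm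
  refine h2.congr fun n => ?_
  rw [norm_mul, norm_pow, Complex.norm_real, Real.norm_of_nonneg hr0]

lemma PS.parseval {a : ℕ → ℂ} {f : ℂ → ℂ} (h : PS a f) {r : ℝ} (hr0 : 0 ≤ r) (hr : r < 1) :
    HasSum (fun n => ‖a n‖ ^ 2 * r ^ (2 * n)) (Real.circleAverage (fun z => ‖f z‖ ^ 2) 0 r) := by
  rw [Real.circleAverage_eq_circleAverage_zero_one]
  simp only [add_zero]
  have h1 := parseval_aux (fun n => a n * (r : ℂ) ^ n) (by
    refine (h.summable hr0 hr).congr fun n => ?_
    rw [norm_mul, norm_pow, Complex.norm_real, Real.norm_of_nonneg hr0])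
    (fun z => f (r * z)) (fun z hz => by
      have := h (r * z) (by
        rw [norm_mul, hz, mul_one, Complex.norm_real, Real.norm_of_nonneg hr0]; exact hr)
      refine this.congr_fun ?_
      intro n; rw [mul_pow]; ring)
  refine h1.congr_fun ?_
  intro n
  rw [norm_mul, norm_pow, Complex.norm_real, Real.norm_of_nonneg hr0, mul_pow, ← pow_mul,
    mul_comm n 2]

lemma PS.sub {a b : ℕ → ℂ} {f g : ℂ → ℂ} (ha : PS a f) (hb : PS b g) :
    PS (fun n => a n - b n) (fun z => f z - g z) := fun z hz => by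
  refine ((ha z hz).sub (hb z hz)).congr_fun fun n => ?_
  ring

lemma PS.unique {a b : ℕ → ℂ} {f : ℂ → ℂ} (ha : PS a f) (hb : PS b f) : a = b := by
  have h := (ha.sub hb).parseval (r := 1 / 2) (by norm_num) (by norm_num)
  simp only [sub_self, norm_zero, ne_eq, OfNat.ofNat_ne_zero, not_false_eq_true, zero_pow] at h
  rw [Real.circleAverage_const] at h
  have h2 := (hasSum_zero_iff_of_nonneg (fun n => by positivity)).mp h
  funext n
  have h3 := congrFun h2 n
  simp only [Pi.zero_apply, mul_eq_zero, pow_eq_zero_iff', norm_eq_zero, sub_eq_zero] at h3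
  rcases h3 with h3 | h3
  · exact h3.1
  · norm_num at h3

lemma PS.of_diff {f : ℂ → ℂ} (hf : DifferentiableOn ℂ f (ball 0 1)) : PS (coeff f) f := by
  intro z hz
  have := Complex.hasSum_taylorSeries_on_ball hf (z := z) (by simpa using hz)
  refine this.congr_fun fun n => ?_
  unfold coeff
  rw [sub_zero, smul_eq_mul, smul_eq_mul]
  field_simp

lemma PS.congr {a : ℕ → ℂ} {f g : ℂ → ℂ} (ha : PS a f) (h : ∀ z, ‖z‖ < 1 → f z = g z) : PS a g :=
  fun z hz => h z hz ▸ ha z hz

lemma circleIntegrable_of {f : ℂ → ℂ} (hf : ContinuousOn f (ball 0 1)) {r : ℝ} (hr0 : 0 ≤ r)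
    (hr : r < 1) : CircleIntegrable (fun z => ‖f z‖ ^ 2) 0 r := by
  apply ContinuousOn.circleIntegrable hr0
  apply ContinuousOn.pow
  apply ContinuousOn.norm
  refine hf.mono fun z hz => ?_
  rw [mem_sphere_zero_iff_norm] at hz
  rw [mem_ball_zero_iff, hz]
  exact hr

lemma compare {a b : ℕ → ℂ} {f g : ℂ → ℂ} (ha : PS a f) (hb : PS b g)
    (hf : ContinuousOn f (ball 0 1)) (hg : ContinuousOn g (ball 0 1)) {r : ℝ} (hr0 : 0 ≤ r)
    (hr : r < 1) (h : ∀ z : ℂ, ‖z‖ = r → ‖f z‖ ≤ ‖g z‖) :
    ∑' n, ‖a n‖ ^ 2 * r ^ (2 * n) ≤ ∑' n, ‖b n‖ ^ 2 * r ^ (2 * n) := by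
  rw [(ha.parseval hr0 hr).tsum_eq, (hb.parseval hr0 hr).tsum_eq]
  refine Real.circleAverage_mono (circleIntegrable_of hf hr0 hr) (circleIntegrable_of hg hr0 hr) ?_
  intro z hz
  rw [mem_sphere_zero_iff_norm, abs_of_nonneg hr0] at hz
  exact pow_le_pow_left₀ (norm_nonneg _) (h z hz) 2

/-- The Schwarz-Pick inequality at the origin -/
lemma schwarz_pick {s : ℂ → ℂ} (hs : DifferentiableOn ℂ s (ball 0 1))
    (hb : ∀ z ∈ ball (0 : ℂ) 1, ‖s z‖ ≤ 1) {z : ℂ} (hz : ‖z‖ < 1) :
    ‖s z - s 0‖ ≤ ‖z‖ * ‖1 - (starRingEnd ℂ) (s 0) * s z‖ := by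
  have h00 : (0 : ℂ) ∈ ball (0 : ℂ) 1 := by simp
  have h0 := hb 0 h00
  rcases h0.lt_or_eq with h0 | h0
  · -- the Möbius transform
    have hden : ∀ w ∈ ball (0 : ℂ) 1, 1 - (starRingEnd ℂ) (s 0) * s w ≠ 0 := by
      intro w hw h
      have h1 : (starRingEnd ℂ) (s 0) * s w = 1 := (sub_eq_zero.mp h).symm
      have h2 : ‖(starRingEnd ℂ) (s 0) * s w‖ < 1 := by
        rw [norm_mul, RCLike.norm_conj]
        calc ‖s 0‖ * ‖s w‖ ≤ ‖s 0‖ * 1 := by gcongr; exact hb w hw
          _ < 1 := by rw [mul_one]; exact h0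
      rw [h1, norm_one] at h2
      exact lt_irrefl _ h2
    have hnum : ∀ w ∈ ball (0 : ℂ) 1, ‖s w - s 0‖ ≤ ‖1 - (starRingEnd ℂ) (s 0) * s w‖ := by
      intro w hw
      have h1 := hb w hw
      have e : ‖1 - (starRingEnd ℂ) (s 0) * s w‖ ^ 2 - ‖s w - s 0‖ ^ 2 =
          (1 - ‖s 0‖ ^ 2) * (1 - ‖s w‖ ^ 2) := by
        rw [← Complex.normSq_eq_norm_sq, ← Complex.normSq_eq_norm_sq,
          ← Complex.normSq_eq_norm_sq, ← Complex.normSq_eq_norm_sq]
        simp only [Complex.normSq_apply, Complex.sub_re, Complex.sub_im, Complex.one_re,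
          Complex.one_im, Complex.mul_re, Complex.mul_im, Complex.conj_re, Complex.conj_im]
        ring
      have h2 : 0 ≤ (1 - ‖s 0‖ ^ 2) * (1 - ‖s w‖ ^ 2) := by
        apply mul_nonneg
        · nlinarith [norm_nonneg (s 0)]
        · nlinarith [norm_nonneg (s w)]
      exact le_of_sq_le_sq (by linarith) (norm_nonneg _)
    have hφ : DifferentiableOn ℂ (fun w => (s w - s 0) / (1 - (starRingEnd ℂ) (s 0) * s w))
        (ball 0 1) :=
      (hs.sub_const _).div ((differentiableOn_const _).sub (hs.const_mul _)) hden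
    have hmaps : MapsTo (fun w => (s w - s 0) / (1 - (starRingEnd ℂ) (s 0) * s w)) (ball 0 1)
        (closedBall 0 1) := by
      intro w hw
      rw [mem_closedBall_zero_iff, norm_div]
      exact div_le_one_of_le₀ (hnum w hw) (norm_nonneg _)
    have := Complex.norm_le_norm_of_mapsTo_ball hφ hmaps (by simp) hz
    rw [norm_div, div_le_iff₀ (norm_pos_iff.mpr (hden z (by simpa using hz)))] at this
    exact this
  · have hmax : IsMaxOn (norm ∘ s) (ball 0 1) 0 := by
      intro w hw
      simp only [Set.mem_ofPred_eq, Function.comp_apply]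
      rw [h0]; exact hb w hw
    have := Complex.eqOn_of_isPreconnected_of_isMaxOn_norm (convex_ball (0 : ℂ) 1).isPreconnected
      isOpen_ball hs h00 hmax
    have h1 : s z = s 0 := this (by simpa using hz)
    rw [h1, sub_self, norm_zero]
    positivity

end Pool.Agent.N284.Bohr
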