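import Pool.Agent.N284.Bohr.Coef

/-! Domination of the coefficients. -/

set_option autoImplicit false

open Filter Topology MeasureTheory Set Metric

namespace Pool.Agent.N284.Bohr

/-- a bounded quotient -/
lemma quotient {G H : ℂ → ℂ} (hG : DifferentiableOn ℂ G (ball 0 1))
    (hH : DifferentiableOn ℂ H (ball 0 1)) {k : ℝ} (hk : 0 ≤ k)
    (h : ∀ z ∈ ball (0 : ℂ) 1, ‖G z‖ ≤ k * ‖H z‖) :
    ∃ ω : ℂ → ℂ, DifferentiableOn ℂ ω (ball 0 1) ∧ (∀ z ∈ ball (0 : ℂ) 1, ‖ω z‖ ≤ k) ∧
      ∀ z ∈ ball (0 : ℂ) 1, G z = ω z * H z := by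
  by_cases hz : ∀ z ∈ ball (0 : ℂ) 1, H z = 0
  · refine ⟨fun _ => 0, differentiableOn_const _, fun z _ => by simpa using hk, fun z hz' => ?_⟩
    have := h z hz'
    rw [hz z hz', norm_zero, mul_zero, norm_le_zero_iff] at this
    rw [this, zero_mul]
  push Not at hz
  obtain ⟨z1, hz1, hz1'⟩ := hz
  have hHa : AnalyticOnNhd ℂ H (ball 0 1) := hH.analyticOnNhd isOpen_ball
  have hne : ∀ z ∈ ball (0 : ℂ) 1, ∀ᶠ w in 𝓝[≠] z, H w ≠ 0 := by
    intro z hz
    rcases (hHa z hz).eventually_eq_zero_or_eventually_ne_zero with h1 | h1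
    · exfalso
      have := hHa.eqOn_zero_of_preconnected_of_eventuallyEq_zero
        (convex_ball (0 : ℂ) 1).isPreconnected hz h1
      exact hz1' (this hz1)
    · exact h1
  set Q : ℂ → ℂ := fun w => G w / H w with hQ
  have hQb : ∀ w ∈ ball (0 : ℂ) 1, ‖Q w‖ ≤ k := by
    intro w hw
    rw [hQ, norm_div]
    rcases eq_or_ne (H w) 0 with h0 | h0
    · rw [h0, norm_zero, div_zero]; exact hk
    · rw [div_le_iff₀ (norm_pos_iff.mpr h0)]
      exact h w hw
  have hQd : ∀ w ∈ ball (0 : ℂ) 1, H w ≠ 0 → DifferentiableAt ℂ Q w := fun w hw h0 =>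
    ((hG.differentiableAt (isOpen_ball.mem_nhds hw)).div
      (hH.differentiableAt (isOpen_ball.mem_nhds hw)) h0)
  set ω : ℂ → ℂ := fun z => limUnder (𝓝[≠] z) Q with hω
  have hωQ : ∀ w ∈ ball (0 : ℂ) 1, H w ≠ 0 → ω w = Q w := fun w hw h0 =>
    ((hQd w hw h0).continuousAt.tendsto.mono_left nhdsWithin_le_nhds).limUnder_eq
  -- local description
  have hloc : ∀ z ∈ ball (0 : ℂ) 1, DifferentiableAt ℂ ω z ∧ Tendsto Q (𝓝[≠] z) (𝓝 (ω z)) := by
    intro z hz
    have h1 : ∀ᶠ w in 𝓝 z, w ≠ z → H w ≠ 0 := by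
      have := hne z hz
      rwa [eventually_nhdsWithin_iff] at this
    obtain ⟨U, hU, hUo, hzU⟩ := _root_.eventually_nhds_iff.mp
      (h1.and (isOpen_ball.mem_nhds hz : ∀ᶠ w in 𝓝 z, w ∈ ball (0 : ℂ) 1))
    have hUn : U ∈ 𝓝 z := hUo.mem_nhds hzU
    have hd : DifferentiableOn ℂ Q (U \ {z}) := fun w hw =>
      (hQd w (hU w hw.1).2 ((hU w hw.1).1 hw.2)).differentiableWithinAt
    have hbd : BddAbove (norm ∘ Q '' (U \ {z})) := by
      refine ⟨k, ?_⟩
      rintro _ ⟨w, hw, rfl⟩
      exact hQb w (hU w hw.1).2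
    have hup := Complex.differentiableOn_update_limUnder_of_bddAbove hUn hd hbd
    have heq : ∀ w ∈ U, ω w = Function.update Q z (limUnder (𝓝[≠] z) Q) w := by
      intro w hw
      rcases eq_or_ne w z with rfl | hwz
      · rw [Function.update_self]
      · rw [Function.update_of_ne hwz]
        exact hωQ w (hU w hw).2 ((hU w hw).1 hwz)
    have hdz : DifferentiableAt ℂ ω z := by
      refine (hup.differentiableAt hUn).congr_of_eventuallyEq ?_
      filter_upwards [hUn] with w hw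
      exact heq w hw
    refine ⟨hdz, ?_⟩
    refine (hdz.continuousAt.tendsto.mono_left nhdsWithin_le_nhds).congr' ?_
    filter_upwards [hne z hz, mem_nhdsWithin_of_mem_nhds (isOpen_ball.mem_nhds hz)] with w hw hw2
    exact hωQ w hw2 hw
  refine ⟨ω, fun z hz => (hloc z hz).1.differentiableWithinAt, fun z hz => ?_, fun z hz => ?_⟩
  · refine le_of_tendsto (hloc z hz).2.norm ?_
    filter_upwards [mem_nhdsWithin_of_mem_nhds (isOpen_ball.mem_nhds hz)] with w hw
    exact hQb w hw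
  · rcases eq_or_ne (H z) 0 with h0 | h0
    · have := h z hz
      rw [h0, norm_zero, mul_zero, norm_le_zero_iff] at this
      rw [this, h0, mul_zero]
    · rw [hωQ z hz h0, hQ]
      field_simp

/-- a function of order `N` at the origin has no coefficients below `N` -/
lemma PS.order {e : ℕ → ℂ} {E : ℂ → ℂ} (he : PS e E) (hE : ContinuousOn E (ball 0 1)) {N : ℕ} {C : ℝ}
    (hC : ∀ z : ℂ, ‖z‖ ≤ 1 / 2 → ‖E z‖ ≤ C * ‖z‖ ^ N) {n : ℕ} (hn : n < N) : e n = 0 := by
  have hC0 : 0 ≤ C := by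
    have h1 := hC (1 / 2) (by simp)
    have h2 : ‖(1 / 2 : ℂ)‖ = 1 / 2 := by simp
    rw [h2] at h1
    by_contra h
    push Not at h
    have h3 : C * (1 / 2) ^ N < 0 := mul_neg_of_neg_of_pos h (by positivity)
    linarith [norm_nonneg (E (1 / 2))]
  have h1 : ∀ r : ℝ, 0 < r → r ≤ 1 / 2 → ‖e n‖ ^ 2 ≤ C ^ 2 * r ^ (2 * (N - n)) := by
    intro r hr0 hr
    have hr1 : r < 1 := by linarith
    have hpar := he.parseval hr0.le hr1
    have h2 : Real.circleAverage (fun z => ‖E z‖ ^ 2) 0 r ≤ (C * r ^ N) ^ 2 := by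
      refine Real.circleAverage_mono_on_of_le_circle (circleIntegrable_of hE hr0.le hr1) ?_
      intro z hz
      rw [mem_sphere_zero_iff_norm, abs_of_pos hr0] at hz
      have := hC z (by rw [hz]; exact hr)
      rw [hz] at this
      gcongr
    have h3 : ‖e n‖ ^ 2 * r ^ (2 * n) ≤ (C * r ^ N) ^ 2 :=
      (le_hasSum hpar n fun j _ => by positivity).trans h2
    have h4 : (C * r ^ N) ^ 2 = C ^ 2 * r ^ (2 * (N - n)) * r ^ (2 * n) := by
      rw [mul_pow, mul_assoc, ← pow_add, ← pow_mul]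
      congr 2; omega
    rw [h4] at h3
    exact le_of_mul_le_mul_right h3 (by positivity)
  have h2 : Tendsto (fun r : ℝ => C ^ 2 * r ^ (2 * (N - n))) (𝓝[>] 0) (𝓝 (C ^ 2 * 0 ^ (2 * (N - n)))) := by
    apply tendsto_nhdsWithin_of_tendsto_nhds
    apply Continuous.tendsto
    fun_prop
  have h3 := ge_of_tendsto h2 (by
    filter_upwards [Ioo_mem_nhdsGT (show (0 : ℝ) < 1 / 2 by norm_num)] with r hr
    exact h1 r hr.1 hr.2.le)
  rw [zero_pow (by omega), mul_zero] at h3
  have h4 : ‖e n‖ ^ 2 = 0 := le_antisymm h3 (by positivity)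
  simpa using h4

/-- domination of the coefficients of a quasi-subordinate function -/
lemma dominate {G H : ℂ → ℂ} (hG : DifferentiableOn ℂ G (ball 0 1))
    (hH : DifferentiableOn ℂ H (ball 0 1)) {k : ℝ} (hk : 0 ≤ k)
    (h : ∀ z ∈ ball (0 : ℂ) 1, ‖G z‖ ≤ k * ‖H z‖) {A B : ℕ → ℂ} (hA : PS A G) (hB : PS B H) (N : ℕ) :
    ∑ n ∈ Finset.range N, ‖A n‖ ^ 2 ≤ ∑ n ∈ Finset.range N, k ^ 2 * ‖B n‖ ^ 2 := by
  obtain ⟨ω, hωd, hωb, hω⟩ := quotient hG hH hk h
  set p : ℂ → ℂ := fun z => ∑ n ∈ Finset.range N, B n * z ^ n with hp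
  have hpd : Differentiable ℂ p := by
    rw [hp]; fun_prop
  have hpps : PS (fun n => if n < N then B n else 0) p := by
    intro z _
    have : HasSum (fun n => (if n < N then B n else 0) * z ^ n)
        (∑ n ∈ Finset.range N, (if n < N then B n else 0) * z ^ n) :=
      hasSum_sum_of_ne_finset_zero (fun n hn => by
        rw [Finset.mem_range] at hn
        simp [hn])
    have e : ∑ n ∈ Finset.range N, (if n < N then B n else 0) * z ^ n = p z := by
      rw [hp]
      refine Finset.sum_congr rfl fun n hn => ?_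
      rw [if_pos (Finset.mem_range.mp hn)]
    rwa [e] at this
  set F : ℂ → ℂ := fun z => ω z * p z with hF
  have hFd : DifferentiableOn ℂ F (ball 0 1) := hωd.mul hpd.differentiableOn
  have hFps : PS (coeff F) F := PS.of_diff hFd
  have hE : PS (fun n => A n - coeff F n) (fun z => G z - F z) := hA.sub hFps
  set C : ℝ := k * ∑' n, ‖B (n + N)‖ * (1 / 2) ^ n with hC
  have hsum : Summable (fun n => ‖B (n + N)‖ * (1 / 2 : ℝ) ^ n) := by
    have h1 := (summable_nat_add_iff N).mpr (hB.summable (r := 1 / 2) (by norm_num) (by norm_num))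
    refine (h1.mul_left (2 ^ N)).congr fun n => ?_
    have : (2 : ℝ) ^ N * (1 / 2) ^ N = 1 := by rw [← mul_pow]; norm_num
    rw [pow_add]
    linear_combination ‖B (n + N)‖ * (1 / 2) ^ n * this
  have hcoef : ∀ n < N, A n = coeff F n := by
    intro n hn
    have := hE.order (hG.continuousOn.sub hFd.continuousOn) (C := C) (N := N) (fun z hz => by
      have hz1 : ‖z‖ < 1 := by linarith
      have hzb : z ∈ ball (0 : ℂ) 1 := by simpa using hz1
      have h1 : G z - F z = ω z * (H z - p z) := by rw [hω z hzb, hF]; ring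
      have h2 : H z - p z = ∑' n, B (n + N) * z ^ (n + N) := by
        have h3 := (hB z hz1).summable.sum_add_tsum_nat_add N
        rw [(hB z hz1).tsum_eq] at h3
        rw [← h3, hp]; ring
      rw [h1, norm_mul, h2, hC, mul_assoc]
      have h4 : ‖∑' n, B (n + N) * z ^ (n + N)‖ ≤ (∑' n, ‖B (n + N)‖ * (1 / 2) ^ n) * ‖z‖ ^ N := by
        refine tsum_of_norm_bounded (hsum.hasSum.mul_right _) fun n => ?_
        rw [norm_mul, norm_pow, pow_add, ← mul_assoc]
        gcongr
      exact mul_le_mul (hωb z hzb) h4 (norm_nonneg _) hk) hn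
    exact sub_eq_zero.mp this
  have key := finite_limit (N := N) (α := fun n => ‖A n‖ ^ 2) (β := fun n => k ^ 2 * ‖B n‖ ^ 2)
    (C := 0) (D := 0) (fun r hr0 hr => by
      have h1 := compare hFps (hpps.const_mul k) hFd.continuousOn
        (continuousOn_const.mul hpd.continuous.continuousOn) hr0.le hr (fun z hz => by
          rw [hF, norm_mul, norm_mul, Complex.norm_real, Real.norm_of_nonneg hk]
          have : z ∈ ball (0 : ℂ) 1 := by simpa [hz] using hr
          gcongr
          exact hωb z this)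
      have h2 := (hFps.summable_sq hr0.le hr).sum_le_tsum (Finset.range N)
          fun n _ => by positivity
      have h3 : ∑' n, ‖(k : ℂ) * (if n < N then B n else 0)‖ ^ 2 * r ^ (2 * n) =
          ∑ n ∈ Finset.range N, k ^ 2 * ‖B n‖ ^ 2 * r ^ (2 * n) := by
        rw [tsum_eq_sum (s := Finset.range N)]
        · refine Finset.sum_congr rfl fun n hn => ?_
          rw [if_pos (Finset.mem_range.mp hn), norm_mul, mul_pow, Complex.norm_real,
            Real.norm_of_nonneg hk]
        · intro n hn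
          rw [Finset.mem_range] at hn
          simp [hn]
      rw [h3] at h1
      have h4 : ∑ n ∈ Finset.range N, ‖A n‖ ^ 2 * r ^ (2 * n) =
          ∑ n ∈ Finset.range N, ‖coeff F n‖ ^ 2 * r ^ (2 * n) :=
        Finset.sum_congr rfl fun n hn => by rw [hcoef n (Finset.mem_range.mp hn)]
      rw [h4, zero_add, add_zero]
      exact h2.trans h1)
  simpa using key

end Pool.Agent.N284.Bohr
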