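import Pool.Agent.N284.Bohr.Main

/-! Sharpness, and the theorem. -/

set_option autoImplicit false

open Filter Topology MeasureTheory Set Metric

namespace Pool.Agent.N284.Bohr

/-- the Möbius map -/
noncomputable def mob (a : ℝ) (z : ℂ) : ℂ := (z - a) / (1 - a * z)

lemma mob_den {a : ℝ} (ha0 : 0 ≤ a) (ha1 : a < 1) {z : ℂ} (hz : ‖z‖ < 1) : 1 - (a : ℂ) * z ≠ 0 := by
  intro h
  have h1 : (a : ℂ) * z = 1 := (sub_eq_zero.mp h).symm
  have h2 : ‖(a : ℂ) * z‖ < 1 := by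
    rw [norm_mul, Complex.norm_real, Real.norm_of_nonneg ha0]
    nlinarith [norm_nonneg z]
  rw [h1, norm_one] at h2
  exact lt_irrefl _ h2

lemma mob_norm {a : ℝ} (ha0 : 0 ≤ a) (ha1 : a < 1) {z : ℂ} (hz : ‖z‖ < 1) : ‖mob a z‖ ≤ 1 := by
  unfold mob
  rw [norm_div]
  apply div_le_one_of_le₀ _ (norm_nonneg _)
  have e : ‖1 - (a : ℂ) * z‖ ^ 2 - ‖z - a‖ ^ 2 = (1 - a ^ 2) * (1 - ‖z‖ ^ 2) := by
    rw [← Complex.normSq_eq_norm_sq, ← Complex.normSq_eq_norm_sq, ← Complex.normSq_eq_norm_sq]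
    simp only [Complex.normSq_apply, Complex.sub_re, Complex.sub_im, Complex.one_re,
      Complex.one_im, Complex.mul_re, Complex.mul_im, Complex.ofReal_re, Complex.ofReal_im]
    ring
  have h2 : 0 ≤ (1 - a ^ 2) * (1 - ‖z‖ ^ 2) := by
    apply mul_nonneg
    · nlinarith
    · nlinarith [norm_nonneg z]
  exact le_of_sq_le_sq (by linarith) (norm_nonneg _)

lemma mob_diff {a : ℝ} (ha0 : 0 ≤ a) (ha1 : a < 1) : DifferentiableOn ℂ (mob a) (ball 0 1) := by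
  unfold mob
  refine ((differentiableOn_id).sub_const _).div ((differentiableOn_const _).sub
    (differentiableOn_id.const_mul _)) fun z hz => ?_
  exact mob_den ha0 ha1 (by simpa using hz)

/-- its coefficients -/
noncomputable def mc (a : ℝ) (n : ℕ) : ℂ :=
  Nat.casesOn n (-(a : ℂ)) fun n => (1 - (a : ℂ) ^ 2) * (a : ℂ) ^ n

lemma mob_ps {a : ℝ} (ha0 : 0 ≤ a) (ha1 : a < 1) : PS (mc a) (mob a) := by
  intro z hz
  have hz1 : ‖(a : ℂ) * z‖ < 1 := by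
    rw [norm_mul, Complex.norm_real, Real.norm_of_nonneg ha0]
    nlinarith [norm_nonneg z]
  have h1 := ((hasSum_geometric_of_norm_lt_one hz1).mul_left ((1 - (a : ℂ) ^ 2) * z))
  rw [← hasSum_nat_add_iff' 1]
  simp only [Finset.range_one, Finset.sum_singleton]
  have e : mob a z - mc a 0 * z ^ 0 = (1 - (a : ℂ) ^ 2) * z * (1 - (a : ℂ) * z)⁻¹ := by
    have hd := mob_den ha0 ha1 hz
    show (z - a) / (1 - a * z) - (-(a : ℂ)) * z ^ 0 = _
    rw [pow_zero, mul_one, sub_neg_eq_add, div_add' _ _ _ hd, ← div_eq_mul_inv]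
    congr 1
    ring
  rw [e]
  refine h1.congr_fun fun n => ?_
  show (1 - (a : ℂ) ^ 2) * (a : ℂ) ^ n * z ^ (n + 1) = _
  ring

/-- the extremal function -/
noncomputable def ext (a : ℝ) (z : ℂ) : ℂ := z * mob a z

lemma ext_diff {a : ℝ} (ha0 : 0 ≤ a) (ha1 : a < 1) : DifferentiableOn ℂ (ext a) (ball 0 1) := by
  unfold ext
  exact differentiableOn_id.mul (mob_diff ha0 ha1)

lemma ext_coeff {a : ℝ} (ha0 : 0 ≤ a) (ha1 : a < 1) (n : ℕ) : coeff (ext a) (n + 1) = mc a n := by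
  rw [(PS.of_diff (ext_diff ha0 ha1)).unique (mob_ps ha0 ha1).mul_X]

lemma coeff_const_mul {f : ℂ → ℂ} (hf : DifferentiableOn ℂ f (ball 0 1)) (c : ℂ) (n : ℕ) :
    coeff (fun z => c * f z) n = c * coeff f n := by
  rw [(PS.of_diff (hf.const_mul c)).unique ((PS.of_diff hf).const_mul c)]

lemma ext_inClass {K a : ℝ} (hK : 1 < K) (ha0 : 0 ≤ a) (ha1 : a < 1) :
    InClass K (ext a) (fun z => (((K - 1) / (K + 1) : ℝ) : ℂ) * ext a z) := by
  have hk : 0 ≤ (K - 1) / (K + 1) := div_nonneg (by linarith) (by linarith)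
  refine ⟨ext_diff ha0 ha1, (ext_diff ha0 ha1).const_mul _, by simp [ext], by simp [ext],
    ⟨1, fun z hz => ?_⟩, fun z _ => ?_⟩
  · have hz1 : ‖z‖ < 1 := by simpa using hz
    unfold ext
    rw [norm_mul]
    exact mul_le_one₀ hz1.le (norm_nonneg _) (mob_norm ha0 ha1 hz1)
  · rw [deriv_const_mul_field, norm_mul, Complex.norm_real, Real.norm_of_nonneg hk]

lemma ext_sup {a : ℝ} (ha0 : 0 ≤ a) (ha1 : a < 1) : supNorm (ext a) ≤ 1 := by
  unfold supNorm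
  have : Nonempty (ball (0 : ℂ) 1) := ⟨⟨0, by simp⟩⟩
  refine ciSup_le fun z => ?_
  have hz1 : ‖(z : ℂ)‖ < 1 := mem_ball_zero_iff.mp z.2
  unfold ext
  rw [norm_mul]
  exact mul_le_one₀ hz1.le (norm_nonneg _) (mob_norm ha0 ha1 hz1)

lemma mc_norm {a : ℝ} (ha0 : 0 ≤ a) (ha1 : a < 1) (n : ℕ) :
    ‖mc a n‖ = Nat.casesOn n a fun n => (1 - a ^ 2) * a ^ n := by
  cases n with
  | zero =>
    show ‖-(a : ℂ)‖ = a
    rw [norm_neg, Complex.norm_real, Real.norm_of_nonneg ha0]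
  | succ n =>
    show ‖(1 - (a : ℂ) ^ 2) * (a : ℂ) ^ n‖ = (1 - a ^ 2) * a ^ n
    have e : (1 - (a : ℂ) ^ 2) * (a : ℂ) ^ n = (((1 - a ^ 2) * a ^ n : ℝ) : ℂ) := by push_cast; ring
    have h1 : 0 ≤ 1 - a ^ 2 := by nlinarith
    rw [e, Complex.norm_real, Real.norm_of_nonneg (by positivity)]

lemma ext_sum {a r : ℝ} (ha0 : 0 ≤ a) (ha1 : a < 1) (hr0 : 0 ≤ r) (hr1 : r < 1) :
    HasSum (fun n => ‖mc a n‖ * r ^ (n + 1)) (a * r + r ^ 2 * (1 - a ^ 2) / (1 - a * r)) := by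
  rw [← hasSum_nat_add_iff' 1]
  simp only [Finset.range_one, Finset.sum_singleton, mc_norm ha0 ha1]
  have h1 : a * r < 1 := by nlinarith
  have h2 := (hasSum_geometric_of_lt_one (by positivity) h1).mul_left (r ^ 2 * (1 - a ^ 2))
  have e : a * r + r ^ 2 * (1 - a ^ 2) / (1 - a * r) - a * r ^ (0 + 1) =
      r ^ 2 * (1 - a ^ 2) * (1 - a * r)⁻¹ := by
    rw [div_eq_mul_inv]; ring
  show HasSum _ (a * r + r ^ 2 * (1 - a ^ 2) / (1 - a * r) - a * r ^ (0 + 1))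
  rw [e]
  refine h2.congr_fun fun n => ?_
  show (1 - a ^ 2) * a ^ n * r ^ (n + 1 + 1) = _
  rw [mul_pow]; ring

/-- the parameters -/
lemma params {K : ℝ} (hK : 1 < K) : ∃ s, 1 / 2 ≤ s ∧ s ≤ 5 / 8 ∧ 0 < rK K ∧
    (rK K) ^ 2 = 1 - 2 * s ^ 2 ∧ (1 + (K - 1) / (K + 1)) * (3 - 4 * s) = 1 := by
  have hK0 : 0 < K := by linarith
  have hK1 : 0 < K + 1 := by linarith
  have h1 : 1 / (2 * K ^ 2) ≤ 1 / 2 := by
    apply one_div_le_one_div_of_le (by norm_num)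
    nlinarith
  have h2 : 0 < 7 / 2 - 1 / (2 * K ^ 2) + 5 / K := by
    have : 0 < 5 / K := by positivity
    linarith
  refine ⟨(5 * K - 1) / (8 * K), ?_, ?_, ?_, ?_, ?_⟩
  · rw [div_le_div_iff₀ (by norm_num) (by positivity)]; linarith
  · rw [div_le_div_iff₀ (by positivity) (by norm_num)]; linarith
  · unfold rK; positivity
  · unfold rK
    rw [mul_pow, Real.sq_sqrt h2.le]
    field_simp
    ring
  · field_simp
    ring

theorem upper {K : ℝ} (hK : 1 < K) {h g : ℂ → ℂ} (hc : InClass K h g) {r : ℝ} (hr0 : 0 ≤ r)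
    (hr : r ≤ rK K) : BohrIneq h g r := by
  obtain ⟨s, hs0, hs1, hrK0, hrK2, hks⟩ := params hK
  have hk : 0 < (K - 1) / (K + 1) := div_pos (by linarith) (by linarith)
  obtain ⟨M0, hM0⟩ := hc.bounded
  have hbdd : BddAbove (Set.range fun z : ball (0 : ℂ) 1 => ‖h z‖) :=
    ⟨M0, by rintro _ ⟨z, rfl⟩; exact hM0 z z.2⟩
  have hsup : ∀ z ∈ ball (0 : ℂ) 1, ‖h z‖ ≤ supNorm h := fun z hz => le_ciSup hbdd ⟨z, hz⟩
  have hsup0 : 0 ≤ supNorm h := (norm_nonneg _).trans (hsup 0 (by simp))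
  unfold BohrIneq
  refine ENNReal.tsum_le_of_sum_range_le fun N => ?_
  rw [← ENNReal.ofReal_sum_of_nonneg fun n _ => by positivity]
  apply ENNReal.ofReal_le_ofReal
  refine le_of_forall_pos_le_add fun ε hε => ?_
  obtain ⟨M, hM⟩ : ∃ M, M = supNorm h + ε := ⟨_, rfl⟩
  rw [← hM]
  have hMpos : 0 < M := by linarith
  have hc0 : ‖((M⁻¹ : ℝ) : ℂ)‖ = M⁻¹ := by
    rw [Complex.norm_real, Real.norm_of_nonneg (by positivity)]
  have key := main_bound (h := fun z => ((M⁻¹ : ℝ) : ℂ) * h z)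
    (g := fun z => ((M⁻¹ : ℝ) : ℂ) * g z) hk (hc.analytic_h.const_mul _)
    (hc.analytic_g.const_mul _) (by rw [hc.h_zero, mul_zero]) (fun z hz => by
      rw [norm_mul, hc0, inv_mul_le_iff₀ hMpos, mul_one]
      linarith [hsup z hz]) (fun z hz => by
      rw [deriv_const_mul_field, deriv_const_mul_field, norm_mul, norm_mul]
      have := hc.dilatation z hz
      calc ‖((M⁻¹ : ℝ) : ℂ)‖ * ‖deriv g z‖ ≤ ‖((M⁻¹ : ℝ) : ℂ)‖ *
          ((K - 1) / (K + 1) * ‖deriv h z‖) := by gcongr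
        _ = _ := by ring) hs0 hs1 hrK0 hrK2 hks N
  simp only [coeff_const_mul hc.analytic_h, coeff_const_mul hc.analytic_g, norm_mul, hc0] at key
  have h2 : ∑ n ∈ Finset.range (N + 1), (M⁻¹ * ‖coeff h (n + 1)‖ + M⁻¹ * ‖coeff g (n + 1)‖) *
      rK K ^ (n + 1) = M⁻¹ * ∑ n ∈ Finset.range (N + 1), (‖coeff h (n + 1)‖ + ‖coeff g (n + 1)‖) *
      rK K ^ (n + 1) := by
    rw [Finset.mul_sum]
    exact Finset.sum_congr rfl fun n _ => by ring
  rw [h2, inv_mul_le_iff₀ hMpos, mul_one] at key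
  calc ∑ n ∈ Finset.range N, (‖coeff h (n + 1)‖ + ‖coeff g (n + 1)‖) * r ^ (n + 1)
      ≤ ∑ n ∈ Finset.range N, (‖coeff h (n + 1)‖ + ‖coeff g (n + 1)‖) * rK K ^ (n + 1) := by
        gcongr
    _ ≤ ∑ n ∈ Finset.range (N + 1), (‖coeff h (n + 1)‖ + ‖coeff g (n + 1)‖) * rK K ^ (n + 1) := by
        apply Finset.sum_le_sum_of_subset_of_nonneg
        · exact Finset.range_mono (Nat.le_succ N)
        · intro n _ _; positivity
    _ ≤ M := key

theorem sharp {K : ℝ} (hK : 1 < K) {r : ℝ} (hr : rK K < r) :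
    ∃ h g : ℂ → ℂ, InClass K h g ∧ ¬ BohrIneq h g r := by
  obtain ⟨s, hs0, hs1, hrK0, hrK2, hks⟩ := params hK
  obtain ⟨k, hk⟩ : ∃ k, k = (K - 1) / (K + 1) := ⟨_, rfl⟩
  have hk0 : 0 < k := by rw [hk]; exact div_pos (by linarith) (by linarith)
  rw [← hk] at hks
  obtain ⟨ρ, hρ⟩ : ∃ ρ, ρ = rK K := ⟨_, rfl⟩
  rw [← hρ] at hrK0 hrK2 hr
  have hρ1 : ρ < 1 := by nlinarith
  obtain ⟨a, ha⟩ : ∃ a, a = (1 - s) / ρ := ⟨_, rfl⟩
  have ha0 : 0 < a := by rw [ha]; exact div_pos (by linarith) hrK0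
  have ha1 : a < 1 := by
    rw [ha, div_lt_one hrK0]
    have : (1 - s) ^ 2 < ρ ^ 2 := by nlinarith
    exact lt_of_pow_lt_pow_left₀ 2 hrK0.le this
  have haρ : a * ρ = 1 - s := by rw [ha]; field_simp
  have hsum := ext_sum ha0.le ha1 hrK0.le hρ1
  have hval : a * ρ + ρ ^ 2 * (1 - a ^ 2) / (1 - a * ρ) = 3 - 4 * s := by
    have e1 : ρ ^ 2 * (1 - a ^ 2) = ρ ^ 2 - (a * ρ) ^ 2 := by ring
    have e2 : 1 - (1 - s) = s := by ring
    rw [e1, haρ, hrK2, e2]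
    have : s ≠ 0 := by linarith
    field_simp
    ring
  rw [hval] at hsum
  have hsum2 := hsum.mul_left (1 + k)
  rw [hks] at hsum2
  refine ⟨_, _, ext_inClass hK ha0.le ha1, fun hB => ?_⟩
  unfold BohrIneq at hB
  have hB2 := hB.trans (ENNReal.ofReal_le_ofReal (ext_sup ha0.le ha1))
  rw [ENNReal.ofReal_one] at hB2
  obtain ⟨δ, hδ⟩ : ∃ δ, δ = (1 + k) * (a * (r - ρ)) := ⟨_, rfl⟩
  have hδ0 : 0 < δ := by
    rw [hδ]
    have : 0 < r - ρ := by linarith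
    positivity
  have hsum3 := hsum2.add (hasSum_ite_eq (0 : ℕ) δ)
  have hnn : ∀ n : ℕ, 0 ≤ (1 + k) * (‖mc a n‖ * ρ ^ (n + 1)) + (if n = 0 then δ else 0) := by
    intro n
    have : 0 ≤ (if n = 0 then δ else 0) := by split_ifs <;> linarith
    positivity
  have h1 : ∑' n : ℕ, ENNReal.ofReal ((1 + k) * (‖mc a n‖ * ρ ^ (n + 1)) +
      (if n = 0 then δ else 0)) = ENNReal.ofReal (1 + δ) := by
    rw [← ENNReal.ofReal_tsum_of_nonneg hnn hsum3.summable, hsum3.tsum_eq]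
  have h2 : ∑' n : ℕ, ENNReal.ofReal ((1 + k) * (‖mc a n‖ * ρ ^ (n + 1)) +
      (if n = 0 then δ else 0)) ≤ 1 := by
    refine le_trans (ENNReal.tsum_le_tsum fun n => ?_) hB2
    apply ENNReal.ofReal_le_ofReal
    rw [coeff_const_mul (ext_diff ha0.le ha1), ext_coeff ha0.le ha1, norm_mul, Complex.norm_real,
      ← hk, Real.norm_of_nonneg hk0.le]
    cases n with
    | zero =>
      rw [if_pos rfl, mc_norm ha0.le ha1]
      show (1 + k) * (a * ρ ^ (0 + 1)) + δ ≤ (a + k * a) * r ^ (0 + 1)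
      rw [hδ]
      apply le_of_eq
      ring
    | succ n =>
      rw [if_neg (Nat.succ_ne_zero n), add_zero]
      have : ρ ^ (n + 1 + 1) ≤ r ^ (n + 1 + 1) := by gcongr
      calc (1 + k) * (‖mc a (n + 1)‖ * ρ ^ (n + 1 + 1))
          ≤ (1 + k) * (‖mc a (n + 1)‖ * r ^ (n + 1 + 1)) := by gcongr
        _ = _ := by ring
  rw [h1] at h2
  have h3 : (1 : ENNReal) < ENNReal.ofReal (1 + δ) := by
    rw [← ENNReal.ofReal_one]
    exact (ENNReal.ofReal_lt_ofReal_iff (by linarith)).mpr (by linarith)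
  exact absurd h2 (not_le.mpr h3)

theorem main (K : ℝ) (hK : 1 < K) :
    IsGreatest {R : ℝ | 0 ≤ R ∧ ∀ h g : ℂ → ℂ, InClass K h g → ∀ r, 0 ≤ r → r ≤ R →
      BohrIneq h g r} (rK K) := by
  obtain ⟨s, hs0, hs1, hrK0, hrK2, hks⟩ := params hK
  refine ⟨⟨hrK0.le, fun h g hc r hr0 hr => upper hK hc hr0 hr⟩, ?_⟩
  rintro R ⟨hR0, hR⟩
  by_contra hcon
  push Not at hcon
  obtain ⟨h, g, hc, hn⟩ := sharp hK hcon
  exact hn (hR h g hc R hR0 le_rfl)

end Pool.Agent.N284.Bohr
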